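import Pool.Agent.Lib.MP_eff308_lc.HU.Hit
import Pool.Agent.Lib.MP_eff308_lc.HT.Pos

/-!
# Positive pseudointersections of mixed families
-/

open Cardinal Set Filter

universe u

namespace Pool.Agent.Lib.MP_eff308_lc.HU

open Pool.Agent.Lib.MP_eff308_lc.T Pool.Agent.Lib.MP_eff308_lc.HT

variable {κ : Cardinal.{u}} {U : Set (Set (KK κ))}

/-- `A` is positive for the collection `H` of families: it has size `κ` and meets the intersection
of fewer than `κ` members of any one family of `H` in a set of size `κ`. -/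
def PosH (H : Set (Set (Set (KK κ)))) (A : Set (KK κ)) : Prop :=
  #(↥A) = κ ∧ ∀ F ∈ H, ∀ G : Set (Set (KK κ)), G ⊆ F → #(↥G) < κ → #(↥(A ∩ ⋂₀ G)) = κ

/-- A mixed family of fewer than `p(κ)` sets, all of whose intersections of fewer than `κ`
members are positive, has a positive pseudointersection. -/
theorem pos_pi (h : Ctx κ) (fm : Fm U) (H : Set (Set (Set (KK κ)))) (hH : #(↥H) < tNum κ)
    (hHF : ∀ F ∈ H, #(↥F) < pNum κ) (hpos : ∀ G ⊆ U, #(↥G) < κ → Positive H (⋂₀ G)) :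
    ∃ X : Set (KK κ), #(↥X) = κ ∧ Positive H X ∧ ∀ B ∈ U, Almost X B := by
  classical
  have hneK := neK h.reg
  have hpinf : ℵ₀ ≤ pNum κ := h.reg.aleph0_le.trans (kp h).le
  have hZ : ∀ F : H, ∃ Z : Set (KK κ), #(↥Z) = κ ∧ (∀ B ∈ F.1, Almost Z B) ∧
      ∀ B ∈ U, Almost Z B := by
    intro F
    let f : F.1 ⊕ U → Set (KK κ) := fun n => match n with
      | Sum.inl B => B.1
      | Sum.inr B => B.1
    have hI : #(F.1 ⊕ U) < pNum κ := by
      rw [← Cardinal.add_def]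
      exact Cardinal.add_lt_of_lt hpinf (hHF F.1 F.2) fm.lt
    obtain ⟨Z, hZ, hZf⟩ := pi_index h (Equiv.refl (KK κ)) hI f (by
      intro Γ hΓ
      have hΓ2 := small_preimage hΓ (Sum.inr : U → F.1 ⊕ U) Sum.inr_injective
      have hΓ1 := small_preimage hΓ (Sum.inl : F.1 → F.1 ⊕ U) Sum.inl_injective
      have h1 := hpos ((Subtype.val : U → Set (KK κ)) '' ((Sum.inr : U → F.1 ⊕ U) ⁻¹' Γ))
        (by rintro _ ⟨b, -, rfl⟩; exact b.2) (lt_of_le_of_lt mk_image_le hΓ2) F.1 F.2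
        ((Subtype.val : F.1 → Set (KK κ)) '' ((Sum.inl : F.1 → F.1 ⊕ U) ⁻¹' Γ))
        (by rintro _ ⟨b, -, rfl⟩; exact b.2) (lt_of_le_of_lt mk_image_le hΓ1)
      apply card_of_freq h.reg
      refine (freq_of_card h.reg h1).mono ?_
      rintro x ⟨hx1, hx2⟩
      rw [Set.mem_iInter₂]
      intro n hn
      match n, hn with
      | Sum.inl B, hn =>
        show x ∈ B.1
        exact hx2 B.1 ⟨B, hn, rfl⟩
      | Sum.inr B, hn =>
        show x ∈ B.1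
        exact hx1 B.1 ⟨B, hn, rfl⟩)
    exact ⟨Z, hZ, fun B hB => almost_of_small (hZf (Sum.inl ⟨B, hB⟩)),
      fun B hB => almost_of_small (hZf (Sum.inr ⟨B, hB⟩))⟩
  choose Z hZc hZF hZU using hZ
  obtain ⟨X, hX, hXU, hXZ⟩ := hit h fm (J := H) hH Z (by
    intro F G hG hGc
    apply card_of_freq h.reg
    have h2 : ∀ᶠ x in (atTop : Filter (KK κ)), ∀ B ∈ G, x ∈ Z F → x ∈ B :=
      ev_all_mem h.reg hGc fun B hB => ev_of_almost h (hZU F B (hG hB))
    refine ((freq_of_card h.reg (hZc F)).and_eventually h2).mono ?_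
    rintro x ⟨hx1, hx2⟩
    exact ⟨hx1, fun B hB => hx2 B hB hx1⟩)
  refine ⟨X, hX, fun F hF G hG hGc => ?_, hXU⟩
  apply card_of_freq h.reg
  have h2 : ∀ᶠ x in (atTop : Filter (KK κ)), ∀ B ∈ G, x ∈ Z ⟨F, hF⟩ → x ∈ B :=
    ev_all_mem h.reg hGc fun B hB => ev_of_almost h (hZF ⟨F, hF⟩ B (hG hB))
  refine ((freq_of_card h.reg (hXZ ⟨F, hF⟩)).and_eventually h2).mono ?_
  rintro x ⟨⟨hx1, hx2⟩, hx3⟩
  exact ⟨hx1, fun B hB => hx3 B hB hx2⟩

/-- The normal form of a union of `κ⁺` sets and `κ` well-ordered families. -/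
theorem mx_of (h : Ctx κ) (D : Set (Set (KK κ))) (hD : #(↥D) ≤ Order.succ κ)
    (T : KK κ → Set (Set (KK κ))) (hT : ∀ ξ, StarWO (T ξ)) (hU : U = D ∪ ⋃ ξ, T ξ)
    (hUp : #(↥U) < pNum κ)
    (hs : κ.IsStrongLimit ∨
      {c | (∃ ξ, coin (T ξ) = c) ∧ Order.succ κ < c ∧ c < pNum κ}.Finite) : Mx U := by
  classical
  have hDU : D ⊆ U := by rw [hU]; exact Set.subset_union_left
  have hTU : ∀ ξ, T ξ ⊆ U := by
    intro ξ
    rw [hU]
    exact (Set.subset_iUnion T ξ).trans Set.subset_union_right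
  have hsinf : ℵ₀ ≤ Order.succ κ := h.reg.aleph0_le.trans (Order.le_succ κ)
  choose C hCT hC hCc using fun ξ => coin_spec h.reg (T ξ)
  let D' : Set (Set (KK κ)) := D ∪ ⋃ ξ, {A | A ∈ C ξ ∧ coin (T ξ) ≤ Order.succ κ}
  have hD' : #(↥D') ≤ Order.succ κ := by
    refine (mk_union_le _ _).trans ?_
    refine (add_le_add hD ?_).trans (Cardinal.add_eq_self hsinf).le
    refine (Cardinal.mk_iUnion_le_sum_mk).trans ?_
    refine (Cardinal.sum_le_sum _ (fun _ : KK κ => Order.succ κ) fun ξ => ?_).trans ?_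
    · by_cases hξ : coin (T ξ) ≤ Order.succ κ
      · refine (mk_le_mk_of_subset (t := C ξ) fun A hA => hA.1).trans ?_
        rw [hCc ξ]
        exact hξ
      · have : {A | A ∈ C ξ ∧ coin (T ξ) ≤ Order.succ κ} = ∅ := by
          ext A
          simp [hξ]
        rw [this, mk_emptyCollection]
        exact zero_le
    · rw [Cardinal.sum_const, Cardinal.lift_id, Cardinal.lift_id, mkKK]
      exact (mul_le_mul' (Order.le_succ κ) le_rfl).trans (Cardinal.mul_eq_self hsinf).le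
  have hD'U : D' ⊆ U := by
    rintro A (hA | hA)
    · exact hDU hA
    · obtain ⟨ξ, hξ⟩ := Set.mem_iUnion.1 hA
      exact hTU ξ (hCT ξ hξ.1)
  obtain ⟨M, rank, val, A, hM, hMs, hι, hAF, hA, hAco⟩ :=
    exists_short h.reg (kp h) U T hT hTU (#(↥U)) hUp hs
  refine ⟨M, rank, val, A, D', hM, hMs, hι, hD', hD'U, hAF, hA, fun S hS => ?_⟩
  rw [hU] at hS
  rcases hS with hS | hS
  · exact Or.inl ⟨S, Or.inl hS, almost_refl h.reg S⟩
  · obtain ⟨ξ, hξ⟩ := Set.mem_iUnion.1 hS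
    rcases le_or_gt (coin (T ξ)) (Order.succ κ) with hle | hlt
    · obtain ⟨C0, hC0, hC0S⟩ := hC ξ S hξ
      exact Or.inl ⟨C0, Or.inr (Set.mem_iUnion.2 ⟨ξ, hC0, hle⟩), hC0S⟩
    · have h1 : coin (T ξ) ≤ #(↥U) :=
        (coin_le subset_rfl fun A hA => ⟨A, hA, almost_refl h.reg A⟩).trans
          (mk_le_mk_of_subset (hTU ξ))
      exact Or.inr (hAco ξ hlt h1 S hξ)

/-- **Positive pseudointersections.** -/
theorem pos_mixed (h : Ctx κ) (U D : Set (Set (KK κ))) (T : KK κ → Set (Set (KK κ)))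
    (hU : U = D ∪ ⋃ ξ, T ξ) (hUp : #(↥U) < pNum κ) (hD : #(↥D) ≤ Order.succ κ)
    (hT : ∀ ξ, StarWO (T ξ))
    (hs : κ.IsStrongLimit ∨ {c | (∃ ξ, coin (T ξ) = c) ∧ Order.succ κ < c}.Finite)
    (H : Set (Set (Set (KK κ)))) (hH : #(↥H) < tNum κ) (hHF : ∀ F ∈ H, #(↥F) < pNum κ)
    (hpos : ∀ G : Set (Set (KK κ)), G ⊆ U → #(↥G) < κ → PosH H (⋂₀ G)) :
    ∃ X : Set (KK κ), PosH H X ∧ ∀ B ∈ U, Almost X B := by
  have fm : Fm U := ⟨hUp, fun G hG hGc => (hpos G hG hGc).1,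
    mx_of h D hD T hT hU hUp (hs.imp id fun hf => hf.subset fun c hc => ⟨hc.1, hc.2.1⟩)⟩
  obtain ⟨X, h1, h2, h3⟩ := pos_pi h fm H hH hHF fun G hG hGc => (hpos G hG hGc).2
  exact ⟨X, ⟨h1, h2⟩, h3⟩

end Pool.Agent.Lib.MP_eff308_lc.HU
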