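import Pool.Agent.Lib.MP_eff308_lc.HT.Rc

/-!
# Mixed families of fewer than `p(κ)` sets; large sets of nodes almost inside everything
-/

open Cardinal Set Filter

universe u

namespace Pool.Agent.Lib.MP_eff308_lc.HU

open Pool.Agent.Lib.MP_eff308_lc.T Pool.Agent.Lib.MP_eff308_lc.HT

variable {κ : Cardinal.{u}}

/-- Normal form of a mixed family: at most `κ⁺` sets and sequences in few blocks. -/
def Mx (U : Set (Set (KK κ))) : Prop :=
  ∃ (M : Type u) (rank : M → KK κ) (val : M → Cardinal.{u})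
    (A : ∀ m, KK κ → KK (val m) → Set (KK κ)) (D : Set (Set (KK κ))),
    (∀ b, #{m : M // rank m < b} < κ) ∧ (Finite M ∨ κ.IsStrongLimit) ∧
    #(Σ m, KK (val m)) < pNum κ ∧ #(↥D) ≤ Order.succ κ ∧ D ⊆ U ∧
    (∀ m ξ i, A m ξ i ∈ insert Set.univ U) ∧
    (∀ m ξ i j, i < j → Almost (A m ξ j) (A m ξ i)) ∧
    ∀ S ∈ U, (∃ S' ∈ D, Almost S' S) ∨ ∃ m ξ i, Almost (A m ξ i) S

/-- The standing assumptions on the family `U`. -/
structure Fm (U : Set (Set (KK κ))) : Prop where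
  lt : #(↥U) < pNum κ
  sip : ∀ G ⊆ U, #(↥G) < κ → #(↥(⋂₀ G)) = κ
  mx : Mx U

/-- Closed dense sets of nodes. -/
structure Qu (U : Set (Set (KK κ))) (P : Set (Nd κ)) : Prop where
  clo : Clo P
  dn : ∀ (s : Nd κ), ∀ G ⊆ U, #(↥G) < κ → ∀ c : KK κ,
    ∃ t ∈ P, t ∈ RR (⋂₀ G) s.1 ∧ t ∈ GG c s.1

/-- `A` is a large set of nodes almost inside all `P a`, `RR B s`, `GG c s`. -/
structure Su {J : Type u} (U : Set (Set (KK κ))) (P : J → Set (Nd κ)) (s : Nd κ)
    (A : Set (Nd κ)) : Prop where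
  card : #(↥A) = κ
  inP : ∀ a, #(↥(A \ P a)) < κ
  inR : ∀ B ∈ U, #(↥(A \ RR B s.1)) < κ
  inN : #(↥(A \ RR Set.univ s.1)) < κ
  inG : ∀ c, #(↥(A \ GG c s.1)) < κ

theorem rr_mono {A B s : Set (KK κ)} (h : A ⊆ B) : RR A s ⊆ RR B s :=
  fun _ ht => ⟨ht.1, ht.2.1, fun x hx hxs => h (ht.2.2 x hx hxs)⟩

variable {U : Set (Set (KK κ))}

/-- The case of fewer than `p(κ)` sets. -/
theorem su_p (h : Ctx κ) (fm : Fm U) {J : Type u} [LinearOrder J] (hJ : #J < pNum κ)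
    (hJb : ∀ Γ : Set J, #(↥Γ) < κ → ∃ a, ∀ b ∈ Γ, b ≤ a) (P : J → Set (Nd κ))
    (hd : ∀ a b, a < b → Bd (P b \ P a)) (hP : ∀ a, Qu U (P a)) (s : Nd κ) :
    ∃ A, Su U P s A := by
  obtain ⟨e⟩ := exists_code h
  have hpinf : ℵ₀ ≤ pNum κ := h.reg.aleph0_le.trans (kp h).le
  let f : J ⊕ (Option U ⊕ KK κ) → Set (Nd κ) := fun n => match n with
    | Sum.inl a => P a
    | Sum.inr (Sum.inl none) => RR Set.univ s.1
    | Sum.inr (Sum.inl (some B)) => RR B.1 s.1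
    | Sum.inr (Sum.inr c) => GG c s.1
  have hI : #(J ⊕ (Option U ⊕ KK κ)) < pNum κ := by
    rw [← Cardinal.add_def, ← Cardinal.add_def, Cardinal.mk_option]
    exact Cardinal.add_lt_of_lt hpinf hJ (Cardinal.add_lt_of_lt hpinf
      (Cardinal.add_lt_of_lt hpinf fm.lt (Cardinal.one_lt_aleph0.trans_le hpinf))
      (mkKK.trans_lt (kp h)))
  obtain ⟨A, hA, hAf⟩ := pi_index h e hI f (by
    intro Γ hΓ
    have hΓ1 := small_preimage hΓ Sum.inl Sum.inl_injective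
    have hΓ2 := small_preimage hΓ
      (fun B : U => (Sum.inr (Sum.inl (some B)) : J ⊕ (Option U ⊕ KK κ)))
      (fun i j hij => Option.some.inj (Sum.inl_injective (Sum.inr_injective hij)))
    have hΓ3 := small_preimage hΓ (fun i : KK κ => (Sum.inr (Sum.inr i) : J ⊕ (Option U ⊕ KK κ)))
      (fun i j hij => Sum.inr_injective (Sum.inr_injective hij))
    obtain ⟨a0, ha0⟩ := hJb _ hΓ1
    obtain ⟨c0, hc0⟩ := bdd h.reg hΓ3
    obtain ⟨d1, hd1⟩ := bound_of_small h hΓ1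
      (p := fun a b => ∀ t ∈ P a0 \ P a, ∀ x ∈ t.1, x < b) (by
        intro a ha
        rcases (ha0 a ha).eq_or_lt with rfl | hlt
        · exact ⟨c0, fun t ht => absurd ht.1 ht.2⟩
        · exact hd a a0 hlt)
      (fun a b c hbc hp t ht x hx => (hp t ht x hx).trans_le hbc)
    apply card_of_unbdd h
    intro c
    obtain ⟨c', hc'⟩ := noMax h.reg (max (max c c0) d1)
    obtain ⟨t, htP, htR, htG⟩ := (hP a0).dn s (Subtype.val ''
      ((fun B : U => (Sum.inr (Sum.inl (some B)) : J ⊕ (Option U ⊕ KK κ))) ⁻¹' Γ))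
      (by rintro _ ⟨B, -, rfl⟩; exact B.2) (lt_of_le_of_lt mk_image_le hΓ2) c'
    obtain ⟨x, hxt, hxs⟩ := htR.2.1
    have hcx := htG x hxt hxs
    have hcc : c < c' := lt_of_le_of_lt ((le_max_left _ _).trans (le_max_left _ _)) hc'
    have hc0c : c0 < c' := lt_of_le_of_lt ((le_max_right _ _).trans (le_max_left _ _)) hc'
    have hd1c : d1 < c' := lt_of_le_of_lt (le_max_right _ _) hc'
    refine ⟨t, ?_, x, hxt, lt_of_lt_of_le hcc hcx⟩
    rw [Set.mem_iInter₂]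
    intro n hn
    match n, hn with
    | Sum.inl a, hn =>
      show t ∈ P a
      by_contra hta
      exact absurd (hd1 a hn t ⟨htP, hta⟩ x hxt) (not_lt.2 (hd1c.le.trans hcx))
    | Sum.inr (Sum.inl none), hn =>
      show t ∈ RR Set.univ s.1
      exact rr_mono (Set.subset_univ _) htR
    | Sum.inr (Sum.inl (some B)), hn =>
      show t ∈ RR B.1 s.1
      exact ⟨htR.1, htR.2.1, fun x hx hxs => htR.2.2 x hx hxs B.1 ⟨B, hn, rfl⟩⟩
    | Sum.inr (Sum.inr c1), hn =>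
      show t ∈ GG c1 s.1
      exact fun y hy hys => ((hc0 c1 hn).le.trans hc0c.le).trans (htG y hy hys))
  exact ⟨A, hA, fun a => hAf (Sum.inl a), fun B hB => hAf (Sum.inr (Sum.inl (some ⟨B, hB⟩))),
    hAf (Sum.inr (Sum.inl none)), fun c => hAf (Sum.inr (Sum.inr c))⟩

theorem su_one (h : Ctx κ) (fm : Fm U) {P : Set (Nd κ)} (hP : Qu U P) (s : Nd κ) :
    ∃ A, Su U (fun _ : PUnit.{u+1} => P) s A :=
  su_p h fm (by
    rw [Cardinal.mk_punit]
    exact (Cardinal.one_lt_aleph0.trans h.unc).trans (kp h))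
    (fun _ _ => ⟨PUnit.unit, fun _ _ => le_rfl⟩)
    _ (fun _ _ hab => absurd hab (lt_irrefl _)) (fun _ => hP) s

/-! ### The case of fewer than `t(κ)` sets -/

/-- The space of pairs `(x, t)`: `t` extends `s` by elements `≥ x` and has its code in
`[x, g x)`. -/
def Sp (e : Nd κ ≃ KK κ) (g : KK κ → KK κ) (s : Nd κ) : Type u :=
  {q : KK κ × Nd κ // q.2 ∈ GG q.1 s.1 ∧ q.2 ∈ RR Set.univ s.1 ∧ q.1 ≤ e q.2 ∧ e q.2 < g q.1}

theorem sp_small (hreg : κ.IsRegular) (e : Nd κ ≃ KK κ) (g : KK κ → KK κ) (s : Nd κ)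
    (b : KK κ) {A : Set (Sp e g s)} (hA : ∀ q ∈ A, q.1.1 < b) : #(↥A) < κ := by
  have h1 : #(↥A) ≤ #(↥(⋃ x : Set.Iio b, (fun y : KK κ => (x.1, y)) '' (Set.Iio (g x.1)))) := by
    refine Cardinal.mk_le_of_injective (f := fun q : A => (⟨(q.1.1.1, e q.1.1.2),
      Set.mem_iUnion.2 ⟨⟨q.1.1.1, hA q.1 q.2⟩, e q.1.1.2, q.1.2.2.2.2, rfl⟩⟩ :
      ↥(⋃ x : Set.Iio b, (fun y : KK κ => (x.1, y)) '' (Set.Iio (g x.1))))) ?_
    intro q q' hqq
    have h2 := congrArg Subtype.val hqq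
    have h3 := congrArg Prod.fst h2
    have h4 := congrArg Prod.snd h2
    exact Subtype.ext (Subtype.ext (Prod.ext h3 (e.injective h4)))
  refine lt_of_le_of_lt h1 ?_
  refine (card_iUnion_lt_iff_forall_of_isRegular hreg
    (Cardinal.mk_Iio_toType_ord_lt b)).2 fun x => ?_
  exact lt_of_le_of_lt mk_image_le (Cardinal.mk_Iio_toType_ord_lt _)

/-- Pairs whose second component extends `s` inside `B`. -/
def tl {e : Nd κ ≃ KK κ} {g : KK κ → KK κ} {s : Nd κ} (B : Set (KK κ)) : Set (Sp e g s) :=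
  {q | q.1.2 ∈ RR B s.1}

theorem tl_mono (hreg : κ.IsRegular) {e : Nd κ ≃ KK κ} {g : KK κ → KK κ} {s : Nd κ}
    {A B : Set (KK κ)} (hAB : Almost A B) :
    #(↥((tl A : Set (Sp e g s)) \ tl B)) < κ := by
  obtain ⟨b, hb⟩ := almost_bdd hreg hAB
  refine sp_small hreg e g s b ?_
  rintro q ⟨hq, hqB⟩
  by_contra hcon
  refine hqB ⟨hq.1, hq.2.1, fun x hx hxs => ?_⟩
  exact hb x (hq.2.2 x hx hxs) ((not_lt.1 hcon).trans (q.2.1 x hx hxs))

theorem su_t (h : Ctx κ) (fm : Fm U) {J : Type u} [LinearOrder J]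
    [WellFoundedLT J] (hJ : #J < tNum κ) (hJp : pNum κ ≤ #J)
    (hJb : ∀ Γ : Set J, #(↥Γ) ≤ κ → ∃ a, ∀ b ∈ Γ, b ≤ a) (P : J → Set (Nd κ))
    (hd : ∀ a b, a < b → Bd (P b \ P a)) (hP : ∀ a, Qu U (P a)) (s : Nd κ) :
    ∃ A, Su U P s A := by
  classical
  have hneK := neK h.reg
  obtain ⟨e⟩ := exists_code h
  obtain ⟨a00, -⟩ := hJb ∅ (by rw [mk_emptyCollection]; exact zero_le)
  choose A0 hA0 using fun a => su_one h fm (hP a) s
  -- the functions `w a`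
  have hw : ∀ (a : J) (x : KK κ), ∃ t ∈ A0 a, t ∈ GG x s.1 ∧ t ∈ RR Set.univ s.1 ∧ x ≤ e t := by
    intro a x
    have hE : #(↥((A0 a \ GG x s.1) ∪ ((A0 a \ RR Set.univ s.1) ∪ {t : Nd κ | e t < x}))) < κ := by
      refine lt_of_le_of_lt (mk_union_le _ _) (Cardinal.add_lt_of_lt h.reg.aleph0_le
        ((hA0 a).inG x) (lt_of_le_of_lt (mk_union_le _ _) (Cardinal.add_lt_of_lt
          h.reg.aleph0_le (hA0 a).inN ((small_iff e h.reg).2 ⟨x, fun t ht => ht⟩))))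
    have : ∃ t ∈ A0 a, t ∉ (A0 a \ GG x s.1) ∪ ((A0 a \ RR Set.univ s.1) ∪
        {t : Nd κ | e t < x}) := by
      by_contra hcon
      push Not at hcon
      have h1 := mk_le_mk_of_subset (show A0 a ⊆ _ from fun t ht => hcon t ht)
      rw [(hA0 a).card] at h1
      exact absurd hE (not_lt.2 h1)
    obtain ⟨t, htA, htE⟩ := this
    rw [Set.mem_union, Set.mem_union, not_or, not_or] at htE
    refine ⟨t, htA, ?_, ?_, not_lt.1 htE.2.2⟩
    · by_contra hcon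
      exact htE.1 ⟨htA, hcon⟩
    · by_contra hcon
      exact htE.2.1 ⟨htA, hcon⟩
  choose w hwA hwG hwR hwe using hw
  obtain ⟨g, hg⟩ := exists_dom h.reg h.unc hJ (fun a x => e (w a x))
  -- the space
  have hSne : Nonempty (Sp e g s) := by
    obtain ⟨x, hx⟩ := (hg a00).exists
    exact ⟨⟨(x, w a00 x), hwG _ _, hwR _ _, hwe _ _, hx⟩⟩
  have hmk : #(Sp e g s) = κ := by
    apply le_antisymm
    · refine (Cardinal.mk_subtype_le _).trans ?_
      rw [mk_prod, Cardinal.lift_id, Cardinal.lift_id, mkKK, mkNd h]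
      exact (Cardinal.mul_eq_self h.reg.aleph0_le).le
    · obtain ⟨b, hb⟩ := Filter.eventually_atTop.1 (hg a00)
      have h1 : #(↥(Set.Ici b)) = κ := by
        apply card_of_freq h.reg
        exact freq_of_ev h.reg (eventually_ge_atTop b)
      refine h1.ge.trans ?_
      refine Cardinal.mk_le_of_injective (f := fun x : ↥(Set.Ici b) =>
        (⟨(x.1, w a00 x.1), hwG _ _, hwR _ _, hwe _ _, hb x.1 x.2⟩ : Sp e g s)) ?_
      intro x y hxy
      exact Subtype.ext (congrArg Prod.fst (congrArg Subtype.val hxy))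
  obtain ⟨e'⟩ : Nonempty (Sp e g s ≃ KK κ) := by
    rw [← Cardinal.eq, hmk, mkKK]
  let Pt : J → Set (Sp e g s) := fun a => {q | q.1.2 ∈ P a}
  have hPt : ∀ a b, a < b → #(↥(Pt b \ Pt a)) < κ := by
    intro a b hab
    obtain ⟨d, hd⟩ := hd a b hab
    refine sp_small h.reg e g s d ?_
    rintro q ⟨hq, hqa⟩
    obtain ⟨u, hu, hus⟩ := q.2.2.1.2.1
    exact lt_of_le_of_lt (q.2.1 u hu hus) (hd q.1.2 ⟨hq, hqa⟩ u hu)
  have toA : ∀ {A B : Set (Sp e g s)}, #(↥(A \ B)) < κ → Almost (e' '' A) (e' '' B) := by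
    intro A B hAB
    rw [almost_img]
    unfold Almost
    rwa [hmk]
  have tl_univ : (tl Set.univ : Set (Sp e g s)) = Set.univ := by
    ext q
    exact ⟨fun _ => trivial, fun _ => q.2.2.1⟩
  -- the family
  let F : Set (Set (KK κ)) := (fun B => e' '' (tl B)) '' U ∪ Set.range (fun a => e' '' (Pt a))
  have hF : SIP F := by
    intro G hG hlt
    rw [mkKK] at hlt ⊢
    have hrep : ∀ B : ↥G, (∃ S ∈ U, e' '' (tl S) = B.1) ∨ ∃ a, e' '' (Pt a) = B.1 := by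
      intro B
      rcases hG B.2 with ⟨S, hS, hSB⟩ | ⟨a, ha⟩
      · exact Or.inl ⟨S, hS, hSB⟩
      · exact Or.inr ⟨a, ha⟩
    have hra : ∃ ra : ↥G → J, ∀ B : ↥G, (∃ S ∈ U, e' '' (tl S) = B.1) ∨
        e' '' (Pt (ra B)) = B.1 := by
      choose ra hra using fun B : ↥G => show ∃ a, (∃ S ∈ U, e' '' (tl S) = B.1) ∨
        e' '' (Pt a) = B.1 from by
          rcases hrep B with h1 | ⟨a, ha⟩
          · exact ⟨a00, Or.inl h1⟩
          · exact ⟨a, Or.inr ha⟩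
      exact ⟨ra, hra⟩
    obtain ⟨ra, hra⟩ := hra
    obtain ⟨c, hc⟩ := hJb (Set.range ra) (mk_range_le.trans hlt.le)
    -- eventually the points `(x, w c x)` belong to everything
    have hev : ∀ᶠ x in (atTop : Filter (KK κ)), ∀ B : ↥G,
        ∀ hx : e (w c x) < g x, e' ⟨(x, w c x), hwG _ _, hwR _ _, hwe _ _, hx⟩ ∈ B.1 := by
      refine ev_all h.reg hlt fun B => ?_
      rcases hra B with ⟨S, hS, hSB⟩ | hB
      · obtain ⟨d, hd⟩ := (small_iff e h.reg).1 ((hA0 c).inR S hS)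
        filter_upwards [eventually_ge_atTop d] with x hx hxg
        rw [← hSB]
        refine ⟨_, ?_, rfl⟩
        show w c x ∈ RR S s.1
        by_contra hcon
        exact absurd (hd _ ⟨hwA c x, hcon⟩) (not_lt.2 (hx.trans (hwe c x)))
      · obtain ⟨d, hd'⟩ := (small_iff e h.reg).1 ((hA0 c).inP PUnit.unit)
        have hbd : ∃ d2 : KK κ, ∀ t ∈ P c \ P (ra B), ∀ x ∈ t.1, x < d2 := by
          rcases (hc (ra B) ⟨B, rfl⟩).eq_or_lt with heq | hlt'
          · exact ⟨d, fun t ht => absurd ht.1 (by rw [← heq]; exact ht.2)⟩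
          · exact hd _ _ hlt'
        obtain ⟨d2, hd2⟩ := hbd
        filter_upwards [eventually_ge_atTop d, eventually_ge_atTop d2] with x hx hx2 hxg
        rw [← hB]
        refine ⟨_, ?_, rfl⟩
        show w c x ∈ P (ra B)
        have h1 : w c x ∈ P c := by
          by_contra hcon
          exact absurd (hd' _ ⟨hwA c x, hcon⟩) (not_lt.2 (hx.trans (hwe c x)))
        by_contra hcon
        obtain ⟨u, hu, hus⟩ := (hwR c x).2.1
        exact absurd (hd2 _ ⟨h1, hcon⟩ u hu) (not_lt.2 (hx2.trans (hwG c x u hu hus)))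
    obtain ⟨b, hb⟩ := Filter.eventually_atTop.1 ((hg c).and hev)
    refine le_antisymm ((mk_set_le _).trans mkKK.le) ?_
    have h1 : #(↥(Set.Ici b)) = κ := by
      apply card_of_freq h.reg
      exact freq_of_ev h.reg (eventually_ge_atTop b)
    refine h1.ge.trans ?_
    refine Cardinal.mk_le_of_injective (f := fun x : ↥(Set.Ici b) =>
      (⟨e' ⟨(x.1, w c x.1), hwG _ _, hwR _ _, hwe _ _, (hb x.1 x.2).1⟩,
        fun B hB => (hb x.1 x.2).2 ⟨B, hB⟩ (hb x.1 x.2).1⟩ : ↥(⋂₀ G))) ?_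
    intro x y hxy
    have h2 := e'.injective (congrArg Subtype.val hxy)
    exact Subtype.ext (congrArg Prod.fst (congrArg Subtype.val h2))
  -- the mixed theorem
  obtain ⟨M, rank, val, A, D, hM, hMs, hι, hD, hDU, hAU, hAd, hcov⟩ := fm.mx
  have hpt : pNum κ < tNum κ := lt_of_le_of_lt hJp hJ
  obtain ⟨Q, hQ, hQD, hQA, hQB⟩ := seqG h.reg h.unc h.pow (succ_lt_p h.reg h.unc h.pow hpt)
    (ple h) rank hM hMs (ι := fun m => KK (val m)) hι hJ hJb F hF
    ((fun B => e' '' (tl B)) '' D) (mk_image_le.trans hD)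
    (by
      rintro _ ⟨B, hB, rfl⟩
      exact Or.inl ⟨B, hDU hB, rfl⟩)
    (fun m ξ i => e' '' (tl (A m ξ i)))
    (by
      intro m ξ i
      rcases hAU m ξ i with hA | hA
      · left
        show e' '' (tl (A m ξ i)) = Set.univ
        rw [hA, tl_univ, Set.image_univ, e'.range_eq_univ]
      · exact Or.inr (Or.inl ⟨_, hA, rfl⟩))
    (fun m ξ i j hij => toA (tl_mono h.reg (hAd m ξ i j hij)))
    (fun _ a => e' '' (Pt a))
    (fun _ a => Or.inr (Or.inr ⟨a, rfl⟩))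
    (fun _ a b hab => toA (hPt a b hab))
  -- back to nodes
  let A1 : Set (Sp e g s) := e' ⁻¹' Q
  have hA1Q : e' '' A1 = Q := Set.image_preimage_eq Q e'.surjective
  have hA1 : #(↥A1) = κ := by
    rw [← Cardinal.mk_image_eq (s := A1) e'.injective, hA1Q, hQ]
  have back : ∀ B : Set (Sp e g s), Almost Q (e' '' B) → #(↥(A1 \ B)) < κ := by
    intro B hB
    rw [← hA1Q, almost_img] at hB
    unfold Almost at hB
    rwa [hmk] at hB
  let A2 : Set (Nd κ) := (fun q : Sp e g s => q.1.2) '' A1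
  have key : ∀ (B : Set (Sp e g s)) (C : Set (Nd κ)), #(↥(A1 \ B)) < κ →
      (∀ q ∈ B, q.1.2 ∈ C) → #(↥(A2 \ C)) < κ := by
    intro B C hB hBC
    refine lt_of_le_of_lt (mk_le_mk_of_subset ?_)
      (lt_of_le_of_lt (mk_image_le (f := fun q : Sp e g s => q.1.2)) hB)
    rintro _ ⟨⟨q, hq, rfl⟩, hqC⟩
    exact ⟨q, ⟨hq, fun hqB => hqC (hBC q hqB)⟩, rfl⟩
  have trans' : ∀ B C : Set (Sp e g s), #(↥(A1 \ B)) < κ → #(↥(B \ C)) < κ →
      #(↥(A1 \ C)) < κ := by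
    intro B C h1 h2
    refine lt_of_le_of_lt ((mk_le_mk_of_subset ?_).trans (mk_union_le _ _))
      (Cardinal.add_lt_of_lt h.reg.aleph0_le h1 h2)
    rintro x ⟨hxA, hxC⟩
    by_cases hxB : x ∈ B
    · exact Or.inr ⟨hxB, hxC⟩
    · exact Or.inl ⟨hxA, hxB⟩
  refine ⟨A2, ?_, fun a => key (Pt a) _ (back _ (hQB hneK.some a)) fun q hq => hq,
    fun B hB => ?_, ?_, fun c => ?_⟩
  · refine le_antisymm ((mk_set_le A2).trans (mkNd h).le) (not_lt.1 fun hlt => ?_)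
    obtain ⟨d, hd⟩ := (small_iff e h.reg).1 hlt
    have h1 : #(↥A1) < κ := sp_small h.reg e g s d fun q hq =>
      lt_of_le_of_lt q.2.2.2.1 (hd q.1.2 ⟨q, hq, rfl⟩)
    exact absurd hA1 h1.ne
  · rcases hcov B hB with ⟨S, hS, hSB⟩ | ⟨m, ξ, i, hSB⟩
    · exact key (tl B) _ (trans' _ _ (back _ (hQD _ ⟨S, hS, rfl⟩)) (tl_mono h.reg hSB))
        fun q hq => hq
    · exact key (tl B) _ (trans' _ _ (back _ (hQA m ξ i)) (tl_mono h.reg hSB)) fun q hq => hq
  · refine key Set.univ _ ?_ fun q _ => q.2.2.1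
    rw [Set.sdiff_eq_empty.2 (Set.subset_univ _), mk_emptyCollection]
    exact h.reg.pos
  · refine key {q | c ≤ q.1.1} _ ?_ fun q hq x hx hxs => le_trans hq (q.2.1 x hx hxs)
    exact sp_small h.reg e g s c fun q hq => not_le.1 hq.2

end Pool.Agent.Lib.MP_eff308_lc.HU
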